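import Pool.Agent.Q161.ESV.Stm5

/-!
# Project ESV2: the dimension depends only on the class of `D` (RSQ)
-/

set_option autoImplicit false

namespace Pool.Agent.Q299.ESV

open NumberField IsDedekindDomain Finset Pool.Agent.Q161.ESV

theorem rk_congr {F : Type} [Field F] [NumberField F] {n : ℕ} (ρ : GF F →* GL (Fin n) ℤ_[2])
    (B : ℕ) {D D' : F} (h : chi D' = chi D) : rkV ρ B D' = rkV ρ B D := by
  have h1 : Z1V ρ D' = Z1V ρ D := by
    ext c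
    change ((∀ σ τ, c (σ * τ) = c σ + chi D' σ • act ρ σ (c τ)) ∧ Continuous c) ↔
      ((∀ σ τ, c (σ * τ) = c σ + chi D σ • act ρ σ (c τ)) ∧ Continuous c)
    rw [h]
  have h2 : cobV ρ D' = cobV ρ D := by
    apply LinearMap.ext
    intro P
    funext σ
    change chi D' σ • act ρ σ P - P = chi D σ • act ρ σ P - P
    rw [h]
  have h3 : SelV ρ B D' = SelV ρ B D := by
    ext c
    change (c ∈ Z1V ρ D' ∧ ∀ (l : ℕ) [Fact l.Prime], ¬ l ∣ B →
      ∀ ψ : AlgebraicClosure F →+* PadicAlgCl l, ∃ P, ∀ σ ∈ Ine ψ, c σ = cobV ρ D' P σ) ↔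
      (c ∈ Z1V ρ D ∧ ∀ (l : ℕ) [Fact l.Prime], ¬ l ∣ B →
      ∀ ψ : AlgebraicClosure F →+* PadicAlgCl l, ∃ P, ∀ σ ∈ Ine ψ, c σ = cobV ρ D P σ)
    rw [h1, h2]
  have key : ∀ (S S' : Submodule ℚ_[2] (GF F → (Fin n → ℚ_[2])))
      (c c' : (Fin n → ℚ_[2]) →ₗ[ℚ_[2]] (GF F → (Fin n → ℚ_[2]))), S = S' → c = c' →
      Module.finrank ℚ_[2] (S ⧸ (LinearMap.range c).comap S.subtype) =
        Module.finrank ℚ_[2] (S' ⧸ (LinearMap.range c').comap S'.subtype) := by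
    rintro S S' c c' rfl rfl
    rfl
  exact key _ _ _ _ h3 h2

theorem rsq (h : S_CHI) : S_RSQ := by
  intro F _ _ n ρ B D u hu
  exact rk_congr ρ B ((h F).2.1 D u hu)

end Pool.Agent.Q299.ESV
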